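import Mathlib

/-!
# Rational finitely presented isometric actions do not amalgamate
-/

set_option linter.unusedSectionVars false

namespace Pool.Agent.Results.MP_66eb21_an.NoAmalgamation

/-- The vector space `E_{F,I}` with basis `x_{g,i}`, realised as functions on `F × I`. -/
abbrev V (F I : Type) : Type := F × I → ℝ

/-- The basis vector `x_{g,i}`. -/
noncomputable def bas {F I : Type} (g : F) (i : I) : V F I :=
  open Classical in fun p => if p = (g, i) then 1 else 0

/-- The action `g · x_{f,i} = x_{gf,i}`. -/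
def act {F I : Type} [Group F] (g : F) (x : V F I) : V F I := fun p => x (g⁻¹ * p.1, p.2)

/-- The linear combination given by a list of coefficients and vectors. -/
def comb {F I : Type} (L : List (ℝ × V F I)) : V F I := (L.map fun p => p.1 • p.2).sum

/-- `∑ |α_k| N(w_k)`. -/
def cost {F I : Type} (N : V F I → ℝ) (L : List (ℝ × V F I)) : ℝ :=
  (L.map fun p => |p.1| * N p.2).sum

/-- Admissible sets. -/
structure Admissible {F I : Type} [Group F] (W : Set (V F I)) : Prop where
  finite : W.Finite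
  zero : 0 ∈ W
  neg : ∀ w ∈ W, -w ∈ W
  act_mem : ∀ g : F, ∀ w ∈ W, act g w ∈ W
  sub_mem : ∀ i j : I, i ≠ j → bas (1 : F) i - bas 1 j ∈ W
  bas_mem : ∀ (g : F) (i : I), bas g i ∈ W

/-- Partial `F`-norms on `W` (only the values of `N` on `W` matter). -/
structure IsPartialNorm {F I : Type} [Group F] (W : Set (V F I)) (N : V F I → ℝ) : Prop where
  nonneg : ∀ w ∈ W, 0 ≤ N w
  eq_zero : ∀ w ∈ W, (N w = 0 ↔ w = 0)
  smul : ∀ (α : ℝ) (w : V F I), w ∈ W → α • w ∈ W → N (α • w) = |α| * N w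
  le_cost : ∀ w ∈ W, ∀ L : List (ℝ × V F I), (∀ p ∈ L, p.2 ∈ W) → w = comb L → N w ≤ cost N L
  invariant : ∀ g : F, ∀ w ∈ W, N (act g w) = N w

/-- The maximal extension of a partial norm. -/
noncomputable def ext {F I : Type} (W : Set (V F I)) (N : V F I → ℝ) (x : V F I) : ℝ :=
  sInf {r | ∃ L : List (ℝ × V F I), (∀ p ∈ L, p.2 ∈ W) ∧ x = comb L ∧ r = cost N L}

/-- Rational finitely presented actions. -/
structure Act where
  F : Type
  I : Type
  [grp : Group F]
  [finF : Finite F]
  [finI : Finite I]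
  [neI : Nonempty I]
  W : Set (V F I)
  N : V F I → ℝ
  adm : Admissible W
  pn : IsPartialNorm W N
  ratW : ∀ w ∈ W, ∀ p, ∃ q : ℚ, w p = q
  ratN : ∀ w ∈ W, ∃ q : ℚ, N w = q

attribute [instance] Act.grp Act.finF Act.finI Act.neI

/-- The norm of the action. -/
noncomputable def Act.norm (A : Act) (x : V A.F A.I) : ℝ := ext A.W A.N x

/-- The linear map with `x_{g,i} ↦ x_{φ g, ψ i}`. -/
noncomputable def push {F I F' I' : Type} [Finite F] [Finite I] (φ : F → F') (ψ : I → I')
    (x : V F I) : V F' I' :=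
  ∑ᶠ p : F × I, x p • bas (φ p.1) (ψ p.2)

/-- Embeddings of finitely presented actions. -/
structure Emb (A B : Act) where
  φ : A.F →* B.F
  ψ : A.I → B.I
  φ_inj : Function.Injective φ
  ψ_inj : Function.Injective ψ
  isometric : ∀ x : V A.F A.I, B.norm (push φ ψ x) = A.norm x

/-- The amalgamation property of the class of all rational finitely presented actions. -/
def Amalgamation : Prop :=
  ∀ (A B C : Act) (e₁ : Emb A B) (e₂ : Emb A C), ∃ (D : Act) (f₁ : Emb B D) (f₂ : Emb C D),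
    f₁.φ.comp e₁.φ = f₂.φ.comp e₂.φ ∧ f₁.ψ ∘ e₁.ψ = f₂.ψ ∘ e₂.ψ

/-! ### Basic facts on combinations -/

section Basic

variable {F I : Type}

theorem comb_nil : comb ([] : List (ℝ × V F I)) = 0 := rfl

theorem comb_append (L M : List (ℝ × V F I)) : comb (L ++ M) = comb L + comb M := by
  simp [comb]

theorem cost_append (N : V F I → ℝ) (L M : List (ℝ × V F I)) :
    cost N (L ++ M) = cost N L + cost N M := by
  simp [cost]

theorem comb_cons (a : ℝ × V F I) (L : List (ℝ × V F I)) :
    comb (a :: L) = a.1 • a.2 + comb L := by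
  simp [comb]

theorem cost_cons (N : V F I → ℝ) (a : ℝ × V F I) (L : List (ℝ × V F I)) :
    cost N (a :: L) = |a.1| * N a.2 + cost N L := by
  simp [cost]

theorem comb_scale (c : ℝ) (L : List (ℝ × V F I)) :
    comb (L.map fun p => (c * p.1, p.2)) = c • comb L := by
  induction L with
  | nil => simp [comb]
  | cons a L ih => rw [List.map_cons, comb_cons, comb_cons, ih, smul_add, mul_smul]

theorem cost_scale (N : V F I → ℝ) (c : ℝ) (L : List (ℝ × V F I)) :
    cost N (L.map fun p => (c * p.1, p.2)) = |c| * cost N L := by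
  induction L with
  | nil => simp [cost]
  | cons a L ih => rw [List.map_cons, cost_cons, cost_cons, ih, abs_mul]; ring

theorem cost_nonneg {N : V F I → ℝ} {W : Set (V F I)} (hN : ∀ w ∈ W, 0 ≤ N w)
    (L : List (ℝ × V F I)) (hL : ∀ p ∈ L, p.2 ∈ W) : 0 ≤ cost N L := by
  refine List.sum_nonneg ?_
  intro r hr
  obtain ⟨p, hp, rfl⟩ := List.mem_map.mp hr
  exact mul_nonneg (abs_nonneg _) (hN _ (hL p hp))

variable [Group F]

theorem act_add (g : F) (x y : V F I) : act g (x + y) = act g x + act g y := rfl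
theorem act_smul (g : F) (c : ℝ) (x : V F I) : act g (c • x) = c • act g x := rfl
theorem act_zero (g : F) : act g (0 : V F I) = 0 := rfl

theorem act_mul (g h : F) (x : V F I) : act (g * h) x = act g (act h x) := by
  funext p; simp [act, mul_assoc]

theorem act_one (x : V F I) : act (1 : F) x = x := by
  funext p; simp [act]

theorem act_bas (g f : F) (i : I) : act g (bas f i) = bas (g * f) i := by
  classical
  funext p
  simp only [act, bas, Prod.ext_iff]
  have : (g⁻¹ * p.1 = f) ↔ (p.1 = g * f) := inv_mul_eq_iff_eq_mul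
  simp only [this]

theorem comb_act (g : F) (L : List (ℝ × V F I)) :
    comb (L.map fun p => (p.1, act g p.2)) = act g (comb L) := by
  induction L with
  | nil => rfl
  | cons a L ih => rw [List.map_cons, comb_cons, comb_cons, ih, act_add, act_smul]

end Basic

/-! ### Properties of the norm of an action -/

section Norm

variable (D : Act)

theorem set_bdd (x : V D.F D.I) : BddBelow {r | ∃ L : List (ℝ × V D.F D.I),
    (∀ p ∈ L, p.2 ∈ D.W) ∧ x = comb L ∧ r = cost D.N L} := by
  refine ⟨0, ?_⟩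
  rintro _ ⟨L, hL, _, rfl⟩
  exact cost_nonneg D.pn.nonneg L hL

theorem norm_le_cost (x : V D.F D.I) (L : List (ℝ × V D.F D.I)) (hL : ∀ p ∈ L, p.2 ∈ D.W)
    (hx : x = comb L) : D.norm x ≤ cost D.N L := csInf_le (set_bdd D x) ⟨L, hL, hx, rfl⟩

theorem set_nonempty (x : V D.F D.I) : {r | ∃ L : List (ℝ × V D.F D.I),
    (∀ p ∈ L, p.2 ∈ D.W) ∧ x = comb L ∧ r = cost D.N L}.Nonempty := by
  classical
  have := Fintype.ofFinite (D.F × D.I)
  let L : List (ℝ × V D.F D.I) :=
    (Finset.univ : Finset (D.F × D.I)).toList.map fun p => (x p, bas p.1 p.2)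
  refine ⟨cost D.N L, L, ?_, ?_, rfl⟩
  · intro q hq
    obtain ⟨p, _, rfl⟩ := List.mem_map.mp hq
    exact D.adm.bas_mem _ _
  · have h1 : comb L = ∑ p : D.F × D.I, x p • bas p.1 p.2 := by
      simp only [comb, L, List.map_map]
      exact Finset.sum_map_toList _ _
    rw [h1]
    funext q
    simp [bas, Finset.sum_apply]

theorem norm_nonneg (x : V D.F D.I) : 0 ≤ D.norm x := by
  refine le_csInf (set_nonempty D x) ?_
  rintro _ ⟨L, hL, _, rfl⟩
  exact cost_nonneg D.pn.nonneg L hL

theorem norm_mem_le (w : V D.F D.I) (hw : w ∈ D.W) : D.norm w ≤ D.N w := by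
  have := norm_le_cost D w [(1, w)] (by simpa using hw) (by simp [comb])
  simpa [cost] using this

theorem norm_add_le (x y : V D.F D.I) : D.norm (x + y) ≤ D.norm x + D.norm y := by
  have h1 : D.norm (x + y) - D.norm x ≤ D.norm y := by
    refine le_csInf (set_nonempty D y) ?_
    rintro _ ⟨M, hM, hy, rfl⟩
    have h2 : D.norm (x + y) - cost D.N M ≤ D.norm x := by
      refine le_csInf (set_nonempty D x) ?_
      rintro _ ⟨L, hL, hx, rfl⟩
      have h3 := norm_le_cost D (x + y) (L ++ M) (by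
        intro p hp
        rcases List.mem_append.mp hp with h | h
        · exact hL p h
        · exact hM p h) (by rw [comb_append, ← hx, ← hy])
      rw [cost_append] at h3
      linarith
    linarith
  linarith

theorem norm_smul_le (c : ℝ) (x : V D.F D.I) : D.norm (c • x) ≤ |c| * D.norm x := by
  rcases eq_or_ne c 0 with rfl | hc
  · have := norm_le_cost D (0 : V D.F D.I) [] (by simp) rfl
    simpa [cost] using this
  have hc' : 0 < |c| := abs_pos.mpr hc
  rw [← div_le_iff₀' hc']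
  refine le_csInf (set_nonempty D x) ?_
  rintro _ ⟨L, hL, hx, rfl⟩
  rw [div_le_iff₀' hc']
  have h3 := norm_le_cost D (c • x) (L.map fun p => (c * p.1, p.2)) (by
    intro q hq
    obtain ⟨p, hp, rfl⟩ := List.mem_map.mp hq
    exact hL p hp) (by rw [comb_scale, ← hx])
  rwa [cost_scale] at h3

theorem norm_smul (c : ℝ) (x : V D.F D.I) : D.norm (c • x) = |c| * D.norm x := by
  refine le_antisymm (norm_smul_le D c x) ?_
  rcases eq_or_ne c 0 with rfl | hc
  · rw [abs_zero, zero_mul]; exact norm_nonneg D _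
  have h := norm_smul_le D c⁻¹ (c • x)
  rw [smul_smul, inv_mul_cancel₀ hc, one_smul, abs_inv] at h
  have hc' : 0 < |c| := abs_pos.mpr hc
  calc |c| * D.norm x ≤ |c| * (|c|⁻¹ * D.norm (c • x)) := mul_le_mul_of_nonneg_left h hc'.le
    _ = D.norm (c • x) := by rw [← mul_assoc, mul_inv_cancel₀ hc'.ne', one_mul]

theorem cost_act (g : D.F) (L : List (ℝ × V D.F D.I)) (hL : ∀ p ∈ L, p.2 ∈ D.W) :
    cost D.N (L.map fun p => (p.1, act g p.2)) = cost D.N L := by
  induction L with
  | nil => rfl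
  | cons a L ih =>
    rw [List.map_cons, cost_cons, cost_cons, ih (fun p hp => hL p (List.mem_cons_of_mem _ hp)),
      D.pn.invariant g _ (hL a List.mem_cons_self)]

theorem norm_act_le (g : D.F) (x : V D.F D.I) : D.norm (act g x) ≤ D.norm x := by
  refine le_csInf (set_nonempty D x) ?_
  rintro _ ⟨L, hL, hx, rfl⟩
  rw [← cost_act D g L hL]
  refine norm_le_cost D _ _ ?_ (by rw [comb_act, ← hx])
  intro q hq
  obtain ⟨p, hp, rfl⟩ := List.mem_map.mp hq
  exact D.adm.act_mem _ _ (hL p hp)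

/-- A norming functional. -/
theorem exists_functional (v : V D.F D.I) (hv : v ≠ 0) :
    ∃ ξ : V D.F D.I →ₗ[ℝ] ℝ, ξ v = D.norm v ∧ ∀ x, |ξ x| ≤ D.norm x := by
  obtain ⟨g, hg1, hg2⟩ := exists_extension_of_le_sublinear
    (LinearPMap.mkSpanSingleton v (D.norm v) hv) D.norm
    (fun c hc x => by rw [norm_smul, abs_of_pos hc]) (norm_add_le D) (by
      rintro ⟨x, hx⟩
      obtain ⟨c, rfl⟩ := Submodule.mem_span_singleton.mp hx
      have h1 : (LinearPMap.mkSpanSingleton v (D.norm v) hv) ⟨c • v, hx⟩ = c • D.norm v :=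
        LinearPMap.mkSpanSingleton'_apply v (D.norm v) _ c hx
      rw [h1]
      show c • D.norm v ≤ D.norm (c • v)
      rw [norm_smul, smul_eq_mul]
      exact mul_le_mul_of_nonneg_right (le_abs_self c) (norm_nonneg D v))
  refine ⟨g, ?_, fun x => ?_⟩
  · have h := hg1 ⟨v, Submodule.mem_span_singleton_self v⟩
    exact h.trans (LinearPMap.mkSpanSingleton_apply ℝ ℝ (σ := RingHom.id ℝ) hv (D.norm v))
  · rw [abs_le]
    refine ⟨?_, hg2 x⟩
    have h1 := hg2 (-x)
    have h2 : D.norm (-x) = D.norm x := by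
      rw [← neg_one_smul ℝ x, norm_smul]; simp
    rw [map_neg, h2] at h1
    linarith

end Norm

/-! ### Building actions -/

section Build

variable {F I : Type} [Group F] [Finite F] [Finite I] [Nonempty I]

/-- The symmetric invariant set generated by `S`. -/
def gen (S : Set (V F I)) : Set (V F I) :=
  {w | w = 0 ∨ ∃ (ε : ℝ) (g : F) (s : V F I), s ∈ S ∧ (ε = 1 ∨ ε = -1) ∧ w = ε • act g s}

/-- The data of a norm on `E_{F,I}` and of a finite generating set. -/
structure Data (S : Set (V F I)) (N : V F I → ℝ) : Prop where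
  finite : S.Finite
  bas_mem : ∀ i : I, bas 1 i ∈ S
  sub_mem : ∀ i j : I, i ≠ j → bas (1 : F) i - bas 1 j ∈ S ∨ bas (1 : F) j - bas 1 i ∈ S
  add_le : ∀ x y, N (x + y) ≤ N x + N y
  smul : ∀ (c : ℝ) x, N (c • x) = |c| * N x
  eq_zero : ∀ x, N x = 0 → x = 0
  invariant : ∀ (g : F) x, N (act g x) = N x
  ratS : ∀ s ∈ S, ∀ p, ∃ q : ℚ, s p = q
  ratN : ∀ s ∈ S, ∃ q : ℚ, N s = q

variable {S : Set (V F I)} {N : V F I → ℝ}

theorem mem_gen {s : V F I} (hs : s ∈ S) : s ∈ gen S :=
  Or.inr ⟨1, 1, s, hs, Or.inl rfl, by rw [act_one, one_smul]⟩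

theorem gen_neg {w : V F I} (hw : w ∈ gen S) : -w ∈ gen S := by
  rcases hw with rfl | ⟨ε, g, s, hs, hε, rfl⟩
  · exact Or.inl neg_zero
  · refine Or.inr ⟨-ε, g, s, hs, ?_, by rw [neg_smul]⟩
    rcases hε with rfl | rfl
    · exact Or.inr rfl
    · exact Or.inl (neg_neg _)

theorem gen_act {w : V F I} (h : F) (hw : w ∈ gen S) : act h w ∈ gen S := by
  rcases hw with rfl | ⟨ε, g, s, hs, hε, rfl⟩
  · exact Or.inl rfl
  · exact Or.inr ⟨ε, h * g, s, hs, hε, by rw [act_mul, act_smul]⟩

theorem gen_finite (hS : S.Finite) : (gen S).Finite := by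
  have h1 : (({1, -1} : Set ℝ) ×ˢ (Set.univ : Set F) ×ˢ S).Finite :=
    (Set.toFinite _).prod (Set.finite_univ.prod hS)
  refine ((h1.image fun p => p.1 • act p.2.1 p.2.2).union (Set.finite_singleton 0)).subset ?_
  rintro w (rfl | ⟨ε, g, s, hs, hε, rfl⟩)
  · exact Or.inr rfl
  · exact Or.inl ⟨(ε, g, s), ⟨hε, Set.mem_univ _, hs⟩, rfl⟩

theorem Data.zero (d : Data S N) : N 0 = 0 := by
  have := d.smul 0 0
  simpa using this

theorem Data.nonneg (d : Data S N) (x : V F I) : 0 ≤ N x := by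
  have h1 := d.add_le x ((-1 : ℝ) • x)
  rw [d.smul, neg_one_smul, add_neg_cancel, d.zero] at h1
  simp at h1
  linarith

theorem Data.le_cost (d : Data S N) (L : List (ℝ × V F I)) : N (comb L) ≤ cost N L := by
  induction L with
  | nil => rw [comb_nil, d.zero]; simp [cost]
  | cons a L ih =>
    rw [comb_cons, cost_cons]
    refine (d.add_le _ _).trans ?_
    rw [d.smul]
    linarith

/-- The finitely presented action. -/
def mkAct (d : Data S N) : Act where
  F := F
  I := I
  W := gen S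
  N := N
  adm :=
    { finite := gen_finite d.finite
      zero := Or.inl rfl
      neg := fun _ hw => gen_neg hw
      act_mem := fun g _ hw => gen_act g hw
      sub_mem := fun i j hij => by
        rcases d.sub_mem i j hij with h | h
        · exact mem_gen h
        · have := gen_neg (mem_gen h)
          rwa [neg_sub] at this
      bas_mem := fun g i => by
        have := gen_act g (mem_gen (d.bas_mem i))
        rwa [act_bas, mul_one] at this }
  pn :=
    { nonneg := fun w _ => d.nonneg w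
      eq_zero := fun w _ => ⟨d.eq_zero w, fun h => by rw [h, d.zero]⟩
      smul := fun α w _ _ => d.smul α w
      le_cost := fun w _ L _ hw => by rw [hw]; exact d.le_cost L
      invariant := fun g w _ => d.invariant g w }
  ratW := by
    rintro w (rfl | ⟨ε, g, s, hs, hε, rfl⟩) p
    · exact ⟨0, by simp⟩
    · obtain ⟨q, hq⟩ := d.ratS s hs (g⁻¹ * p.1, p.2)
      rcases hε with rfl | rfl
      · exact ⟨q, by rw [one_smul]; exact hq⟩
      · refine ⟨-q, ?_⟩
        rw [neg_one_smul]
        show -(s (g⁻¹ * p.1, p.2)) = _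
        rw [hq]; push_cast; rfl
  ratN := by
    rintro w (rfl | ⟨ε, g, s, hs, hε, rfl⟩)
    · exact ⟨0, by rw [d.zero]; simp⟩
    · obtain ⟨q, hq⟩ := d.ratN s hs
      refine ⟨q, ?_⟩
      rw [d.smul, d.invariant, hq]
      rcases hε with rfl | rfl <;> simp

theorem mkAct_ge (d : Data S N) (x : V F I) : N x ≤ (mkAct d).norm x := by
  refine le_csInf (set_nonempty (mkAct d) x) ?_
  rintro _ ⟨L, _, hx, rfl⟩
  rw [hx]
  exact d.le_cost L

theorem mkAct_le (d : Data S N) {s : V F I} (hs : s ∈ S) : (mkAct d).norm s ≤ N s :=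
  norm_mem_le (mkAct d) s (mem_gen hs)

end Build

/-- The norm of the two-dimensional part. -/
theorem norm_part {F : Type} [Group F] [Finite F] {S : Set (V F Bool)} {N : V F Bool → ℝ}
    (d : Data S N) (h0 : N (bas 1 false) = 1) (h1 : N (bas 1 true) = 1)
    (h : ∀ α β : ℝ, |α + β| ≤ N (α • bas 1 false + β • bas 1 true) ∧
      |α - β| ≤ N (α • bas 1 false + β • bas 1 true)) (α β : ℝ) :
    (mkAct d).norm (α • bas 1 false + β • bas 1 true : V F Bool) = |α| + |β| := by
  apply le_antisymm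
  · refine (norm_add_le (mkAct d) _ _).trans ?_
    have e0 := norm_smul (mkAct d) α (bas 1 false : V F Bool)
    have e1 := norm_smul (mkAct d) β (bas 1 true : V F Bool)
    have e2 := mkAct_le d (d.bas_mem false)
    have e3 := mkAct_le d (d.bas_mem true)
    rw [h0] at e2
    rw [h1] at e3
    have e4 := mul_le_mul_of_nonneg_left e2 (abs_nonneg α)
    have e5 := mul_le_mul_of_nonneg_left e3 (abs_nonneg β)
    calc _ = |α| * (mkAct d).norm (bas 1 false : V F Bool) +
          |β| * (mkAct d).norm (bas 1 true : V F Bool) := by rw [← e0, ← e1]; rfl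
      _ ≤ |α| + |β| := by linarith
  · refine le_trans ?_ (mkAct_ge d _)
    obtain ⟨h2, h3⟩ := h α β
    rcases le_total 0 α with ha | ha <;> rcases le_total 0 β with hb | hb
    · rw [abs_of_nonneg ha, abs_of_nonneg hb]
      exact (le_abs_self _).trans h2
    · rw [abs_of_nonneg ha, abs_of_nonpos hb]
      exact (le_abs_self _).trans h3
    · rw [abs_of_nonpos ha, abs_of_nonneg hb]
      have := neg_le_abs (α - β)
      linarith
    · rw [abs_of_nonpos ha, abs_of_nonpos hb]
      have := neg_le_abs (α + β)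
      linarith

theorem push_two {F F' : Type} [Group F] [Group F'] [Finite F] (φ : F →* F') [Subsingleton F]
    (x : V F Bool) :
    (push φ id x : V F' Bool) = x (1, false) • bas 1 false + x (1, true) • bas 1 true := by
  classical
  have := Fintype.ofFinite F
  unfold push
  rw [finsum_eq_sum_of_fintype]
  have huniv : (Finset.univ : Finset (F × Bool)) = {(1, false), (1, true)} := by
    ext ⟨a, b⟩
    have ha : a = 1 := Subsingleton.elim _ _
    subst ha
    cases b <;> simp
  rw [huniv, Finset.sum_insert (by simp), Finset.sum_singleton]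
  simp

theorem push_self {F : Type} [Group F] [Finite F] [Subsingleton F] (x : V F Bool) :
    x = x (1, false) • bas 1 false + x (1, true) • bas 1 true := by
  classical
  funext ⟨a, b⟩
  have ha : a = 1 := Subsingleton.elim _ _
  subst ha
  cases b <;> simp [bas]

/-! ### Seminorms -/

/-- Seminorms. -/
def Semi {F I : Type} (N : V F I → ℝ) : Prop :=
  (∀ x y, N (x + y) ≤ N x + N y) ∧ ∀ (c : ℝ) x, N (c • x) = |c| * N x

theorem Semi.max {F I : Type} {N M : V F I → ℝ} (hN : Semi N) (hM : Semi M) :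
    Semi (fun x => max (N x) (M x)) := by
  refine ⟨fun x y => ?_, fun c x => ?_⟩
  · exact max_le ((hN.1 x y).trans (add_le_add (le_max_left _ _) (le_max_left _ _)))
      ((hM.1 x y).trans (add_le_add (le_max_right _ _) (le_max_right _ _)))
  · show Max.max (N (c • x)) (M (c • x)) = |c| * Max.max (N x) (M x)
    rw [hN.2, hM.2, mul_max_of_nonneg _ _ (abs_nonneg c)]

theorem semi_abs {F I : Type} (φ : V F I → ℝ) (h1 : ∀ x y, φ (x + y) = φ x + φ y)
    (h2 : ∀ (c : ℝ) x, φ (c • x) = c * φ x) : Semi (fun x => |φ x|) := by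
  refine ⟨fun x y => ?_, fun c x => ?_⟩
  · show |φ (x + y)| ≤ |φ x| + |φ y|
    rw [h1]; exact abs_add_le _ _
  · show |φ (c • x)| = |c| * |φ x|
    rw [h2, abs_mul]

/-! ### The first action -/

/-- The `ℓ_1` norm of the plane. -/
noncomputable def NA (x : V Unit Bool) : ℝ :=
  max |x ((), false) + x ((), true)| |x ((), false) - x ((), true)|

/-- The generating set. -/
def SA : Set (V Unit Bool) := {bas () false, bas () true, bas () false - bas () true}

theorem dataA : Data SA NA where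
  finite := by unfold SA; exact Set.toFinite _
  bas_mem := by
    intro i
    cases i
    · exact Or.inl rfl
    · exact Or.inr (Or.inl rfl)
  sub_mem := by
    intro i j hij
    cases i <;> cases j
    · exact absurd rfl hij
    · exact Or.inl (Or.inr (Or.inr rfl))
    · exact Or.inr (Or.inr (Or.inr rfl))
    · exact absurd rfl hij
  add_le := (Semi.max (semi_abs (fun x : V Unit Bool => x ((), false) + x ((), true))
      (fun x y => by simp only [Pi.add_apply]; ring)
      (fun c x => by simp only [Pi.smul_apply, smul_eq_mul]; ring))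
    (semi_abs (fun x : V Unit Bool => x ((), false) - x ((), true))
      (fun x y => by simp only [Pi.add_apply]; ring)
      (fun c x => by simp only [Pi.smul_apply, smul_eq_mul]; ring))).1
  smul := (Semi.max (semi_abs (fun x : V Unit Bool => x ((), false) + x ((), true))
      (fun x y => by simp only [Pi.add_apply]; ring)
      (fun c x => by simp only [Pi.smul_apply, smul_eq_mul]; ring))
    (semi_abs (fun x : V Unit Bool => x ((), false) - x ((), true))
      (fun x y => by simp only [Pi.add_apply]; ring)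
      (fun c x => by simp only [Pi.smul_apply, smul_eq_mul]; ring))).2
  eq_zero := by
    intro x hx
    have h1 : |x ((), false) + x ((), true)| ≤ 0 := hx ▸ le_max_left _ _
    have h2 : |x ((), false) - x ((), true)| ≤ 0 := hx ▸ le_max_right _ _
    have h3 := abs_nonpos_iff.mp h1
    have h4 := abs_nonpos_iff.mp h2
    funext ⟨a, b⟩
    cases b
    · show x ((), false) = 0; linarith
    · show x ((), true) = 0; linarith
  invariant := fun g x => rfl
  ratS := by
    rintro s (rfl | rfl | rfl) ⟨a, b⟩ <;> cases b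
    · exact ⟨1, by simp [bas]⟩
    · exact ⟨0, by simp [bas]⟩
    · exact ⟨0, by simp [bas]⟩
    · exact ⟨1, by simp [bas]⟩
    · exact ⟨1, by simp [bas]⟩
    · exact ⟨-1, by simp [bas]⟩
  ratN := by
    rintro s (rfl | rfl | rfl)
    · exact ⟨1, by simp [NA, bas]⟩
    · exact ⟨1, by simp [NA, bas]⟩
    · exact ⟨2, by simp [NA, bas]; norm_num⟩

/-! ### Vectors over the group with two elements -/

/-- A linear functional in coordinates. -/
def lin (a b c d : ℝ) (x : V ℤˣ Bool) : ℝ :=
  a * x (1, false) + b * x (1, true) + c * x (-1, false) + d * x (-1, true)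

/-- A vector in coordinates. -/
def vec (a b c d : ℝ) : V ℤˣ Bool := fun p =>
  if p.1 = 1 then (if p.2 then b else a) else (if p.2 then d else c)

theorem lin_vec (a b c d p q r s : ℝ) :
    lin a b c d (vec p q r s) = a * p + b * q + c * r + d * s := by
  simp [lin, vec]

theorem semi_lin (a b c d : ℝ) : Semi (fun x => |lin a b c d x|) :=
  semi_abs _ (fun x y => by simp only [lin, Pi.add_apply]; ring)
    (fun c x => by simp only [lin, Pi.smul_apply, smul_eq_mul]; ring)

theorem lin_act (a b c d : ℝ) (x : V ℤˣ Bool) : lin a b c d (act (-1) x) = lin c d a b x := by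
  have h1 : ((-1 : ℤˣ)⁻¹ * 1) = -1 := by decide
  have h2 : ((-1 : ℤˣ)⁻¹ * -1) = 1 := by decide
  simp only [lin, act, h1, h2]
  ring

theorem bas_vec0 : (bas 1 false : V ℤˣ Bool) = vec 1 0 0 0 := by
  funext ⟨a, b⟩
  rcases Int.units_eq_one_or a with rfl | rfl <;> cases b <;> simp [bas, vec]

theorem bas_vec1 : (bas 1 true : V ℤˣ Bool) = vec 0 1 0 0 := by
  funext ⟨a, b⟩
  rcases Int.units_eq_one_or a with rfl | rfl <;> cases b <;> simp [bas, vec]

theorem vec_sub : (vec 1 0 0 0 - vec 0 1 0 0 : V ℤˣ Bool) = vec 1 (-1) 0 0 := by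
  funext ⟨a, b⟩
  rcases Int.units_eq_one_or a with rfl | rfl <;> cases b <;> simp [vec]

theorem vec_comb (α β : ℝ) : (α • vec 1 0 0 0 + β • vec 0 1 0 0 : V ℤˣ Bool) = vec α β 0 0 := by
  funext ⟨a, b⟩
  rcases Int.units_eq_one_or a with rfl | rfl <;> cases b <;> simp [vec]

theorem vec_rat (a b c d : ℚ) (p : ℤˣ × Bool) : ∃ q : ℚ, vec a b c d p = q := by
  obtain ⟨g, i⟩ := p
  unfold vec
  dsimp only
  split_ifs
  exacts [⟨b, rfl⟩, ⟨a, rfl⟩, ⟨d, rfl⟩, ⟨c, rfl⟩]

theorem vec_zero {x : V ℤˣ Bool} (h1 : x (1, false) = 0) (h2 : x (1, true) = 0)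
    (h3 : x (-1, false) = 0) (h4 : x (-1, true) = 0) : x = 0 := by
  funext ⟨a, b⟩
  rcases Int.units_eq_one_or a with rfl | rfl <;> cases b
  exacts [h1, h2, h3, h4]

/-! ### The second action -/

/-- The norm. -/
noncomputable def NB (x : V ℤˣ Bool) : ℝ :=
  max (max |lin 1 1 (1/2) 1 x| |lin 1 (-1) (-1/2) 1 x|)
    (max |lin (1/2) 1 1 1 x| |lin (-1/2) 1 1 (-1) x|)

/-- The generating set. -/
noncomputable def SB : Set (V ℤˣ Bool) :=
  {vec 1 0 0 0, vec 0 1 0 0, vec 1 (-1) 0 0, vec 2 0 0 (-1), vec 1 (1/2) (-1) 0,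
    vec 1 (-1/2) 1 0}

theorem semiB : Semi NB := ((semi_lin _ _ _ _).max (semi_lin _ _ _ _)).max
  ((semi_lin _ _ _ _).max (semi_lin _ _ _ _))

theorem NB_vec (p q r s : ℝ) : NB (vec p q r s) =
    max (max |1 * p + 1 * q + 1/2 * r + 1 * s| |1 * p + -1 * q + -1/2 * r + 1 * s|)
    (max |1/2 * p + 1 * q + 1 * r + 1 * s| |-1/2 * p + 1 * q + 1 * r + -1 * s|) := by
  simp only [NB, lin_vec]

theorem NB1 : NB (vec 1 0 0 0) = 1 := by rw [NB_vec]; norm_num [abs_of_pos, abs_of_neg]
theorem NB2 : NB (vec 0 1 0 0) = 1 := by rw [NB_vec]; norm_num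
theorem NB3 : NB (vec 1 (-1) 0 0) = 2 := by rw [NB_vec]; norm_num [abs_of_pos, abs_of_neg]
theorem NB4 : NB (vec 2 0 0 (-1)) = 1 := by rw [NB_vec]; norm_num
theorem NB5 : NB (vec 1 (1/2) (-1) 0) = 1 := by rw [NB_vec]; norm_num
theorem NB6 : NB (vec 1 (-1/2) 1 0) = 1 := by rw [NB_vec]; norm_num

theorem dataB : Data SB NB where
  finite := by unfold SB; exact Set.toFinite _
  bas_mem := by
    intro i
    cases i
    · rw [bas_vec0]; exact Or.inl rfl
    · rw [bas_vec1]; exact Or.inr (Or.inl rfl)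
  sub_mem := by
    intro i j hij
    cases i <;> cases j
    · exact absurd rfl hij
    · rw [bas_vec0, bas_vec1, vec_sub]; exact Or.inl (Or.inr (Or.inr (Or.inl rfl)))
    · rw [bas_vec0, bas_vec1, vec_sub]; exact Or.inr (Or.inr (Or.inr (Or.inl rfl)))
    · exact absurd rfl hij
  add_le := semiB.1
  smul := semiB.2
  eq_zero := by
    intro x hx
    have h1 : |lin 1 1 (1/2) 1 x| ≤ 0 := hx ▸ (le_max_left _ _).trans (le_max_left _ _)
    have h2 : |lin 1 (-1) (-1/2) 1 x| ≤ 0 := hx ▸ (le_max_right _ _).trans (le_max_left _ _)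
    have h3 : |lin (1/2) 1 1 1 x| ≤ 0 := hx ▸ (le_max_left _ _).trans (le_max_right _ _)
    have h4 : |lin (-1/2) 1 1 (-1) x| ≤ 0 := hx ▸ (le_max_right _ _).trans (le_max_right _ _)
    replace h1 := abs_nonpos_iff.mp h1
    replace h2 := abs_nonpos_iff.mp h2
    replace h3 := abs_nonpos_iff.mp h3
    replace h4 := abs_nonpos_iff.mp h4
    unfold lin at h1 h2 h3 h4
    refine vec_zero ?_ ?_ ?_ ?_ <;> linarith
  invariant := by
    intro g x
    rcases Int.units_eq_one_or g with rfl | rfl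
    · rw [act_one]
    · unfold NB
      rw [lin_act, lin_act, lin_act, lin_act, max_comm]
  ratS := by
    rintro s (rfl | rfl | rfl | rfl | rfl | rfl) p
    · simpa using vec_rat 1 0 0 0 p
    · simpa using vec_rat 0 1 0 0 p
    · simpa using vec_rat 1 (-1) 0 0 p
    · simpa using vec_rat 2 0 0 (-1) p
    · simpa using vec_rat 1 (1/2) (-1) 0 p
    · simpa using vec_rat 1 (-1/2) 1 0 p
  ratN := by
    rintro s (rfl | rfl | rfl | rfl | rfl | rfl)
    · exact ⟨1, by rw [NB1]; norm_num⟩
    · exact ⟨1, by rw [NB2]; norm_num⟩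
    · exact ⟨2, by rw [NB3]; norm_num⟩
    · exact ⟨1, by rw [NB4]; norm_num⟩
    · exact ⟨1, by rw [NB5]; norm_num⟩
    · exact ⟨1, by rw [NB6]; norm_num⟩

/-! ### The third action -/

/-- The norm. -/
noncomputable def NC (x : V ℤˣ Bool) : ℝ :=
  max (max |lin 1 1 1 1 x| |lin (-1) 1 1 (-1) x|)
    (max (max |lin (1/2) 0 0 0 x| |lin 0 (1/2) 0 0 x|)
      (max |lin 0 0 (1/2) 0 x| |lin 0 0 0 (1/2) x|))

/-- The generating set. -/
noncomputable def SC : Set (V ℤˣ Bool) :=
  {vec 1 0 0 0, vec 0 1 0 0, vec 1 (-1) 0 0, vec 0 2 (-1) 0, vec 1 1 0 (-1), vec (-1) 1 0 1}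

theorem semiC : Semi NC := ((semi_lin _ _ _ _).max (semi_lin _ _ _ _)).max
  (((semi_lin _ _ _ _).max (semi_lin _ _ _ _)).max ((semi_lin _ _ _ _).max (semi_lin _ _ _ _)))

theorem NC_vec (p q r s : ℝ) : NC (vec p q r s) =
    max (max |1 * p + 1 * q + 1 * r + 1 * s| |-1 * p + 1 * q + 1 * r + -1 * s|)
    (max (max |1/2 * p + 0 * q + 0 * r + 0 * s| |0 * p + 1/2 * q + 0 * r + 0 * s|)
      (max |0 * p + 0 * q + 1/2 * r + 0 * s| |0 * p + 0 * q + 0 * r + 1/2 * s|)) := by
  simp only [NC, lin_vec]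

theorem NC1 : NC (vec 1 0 0 0) = 1 := by rw [NC_vec]; norm_num
theorem NC2 : NC (vec 0 1 0 0) = 1 := by rw [NC_vec]; norm_num
theorem NC3 : NC (vec 1 (-1) 0 0) = 2 := by rw [NC_vec]; norm_num
theorem NC4 : NC (vec 0 2 (-1) 0) = 1 := by rw [NC_vec]; norm_num
theorem NC5 : NC (vec 1 1 0 (-1)) = 1 := by rw [NC_vec]; norm_num
theorem NC6 : NC (vec (-1) 1 0 1) = 1 := by rw [NC_vec]; norm_num

theorem dataC : Data SC NC where
  finite := by unfold SC; exact Set.toFinite _
  bas_mem := by
    intro i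
    cases i
    · rw [bas_vec0]; exact Or.inl rfl
    · rw [bas_vec1]; exact Or.inr (Or.inl rfl)
  sub_mem := by
    intro i j hij
    cases i <;> cases j
    · exact absurd rfl hij
    · rw [bas_vec0, bas_vec1, vec_sub]; exact Or.inl (Or.inr (Or.inr (Or.inl rfl)))
    · rw [bas_vec0, bas_vec1, vec_sub]; exact Or.inr (Or.inr (Or.inr (Or.inl rfl)))
    · exact absurd rfl hij
  add_le := semiC.1
  smul := semiC.2
  eq_zero := by
    intro x hx
    have h1 : |lin (1/2) 0 0 0 x| ≤ NC x :=
      ((le_max_left _ _).trans (le_max_left _ _)).trans (le_max_right _ _)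
    have h2 : |lin 0 (1/2) 0 0 x| ≤ NC x :=
      ((le_max_right _ _).trans (le_max_left _ _)).trans (le_max_right _ _)
    have h3 : |lin 0 0 (1/2) 0 x| ≤ NC x :=
      ((le_max_left _ _).trans (le_max_right _ _)).trans (le_max_right _ _)
    have h4 : |lin 0 0 0 (1/2) x| ≤ NC x :=
      ((le_max_right _ _).trans (le_max_right _ _)).trans (le_max_right _ _)
    rw [hx] at h1 h2 h3 h4
    replace h1 := abs_nonpos_iff.mp h1
    replace h2 := abs_nonpos_iff.mp h2
    replace h3 := abs_nonpos_iff.mp h3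
    replace h4 := abs_nonpos_iff.mp h4
    unfold lin at h1 h2 h3 h4
    refine vec_zero ?_ ?_ ?_ ?_ <;> linarith
  invariant := by
    intro g x
    rcases Int.units_eq_one_or g with rfl | rfl
    · rw [act_one]
    · unfold NC
      simp only [lin_act]
      have e1 : |lin 1 (-1) (-1) 1 x| = |lin (-1) 1 1 (-1) x| := by
        rw [← abs_neg]
        congr 1
        unfold lin
        ring
      rw [e1]
      congr 1
      exact max_comm _ _
  ratS := by
    rintro s (rfl | rfl | rfl | rfl | rfl | rfl) p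
    · simpa using vec_rat 1 0 0 0 p
    · simpa using vec_rat 0 1 0 0 p
    · simpa using vec_rat 1 (-1) 0 0 p
    · simpa using vec_rat 0 2 (-1) 0 p
    · simpa using vec_rat 1 1 0 (-1) p
    · simpa using vec_rat (-1) 1 0 1 p
  ratN := by
    rintro s (rfl | rfl | rfl | rfl | rfl | rfl)
    · exact ⟨1, by rw [NC1]; norm_num⟩
    · exact ⟨1, by rw [NC2]; norm_num⟩
    · exact ⟨2, by rw [NC3]; norm_num⟩
    · exact ⟨1, by rw [NC4]; norm_num⟩
    · exact ⟨1, by rw [NC5]; norm_num⟩
    · exact ⟨1, by rw [NC6]; norm_num⟩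

/-! ### The embeddings -/

theorem normA (α β : ℝ) :
    (mkAct dataA).norm (α • bas 1 false + β • bas 1 true : V Unit Bool) = |α| + |β| := by
  refine norm_part dataA ?_ ?_ ?_ α β
  · simp [NA, bas]
  · simp [NA, bas]
  · intro α β
    constructor
    · refine le_trans (le_of_eq ?_) (le_max_left _ _)
      simp [bas]
    · refine le_trans (le_of_eq ?_) (le_max_right _ _)
      simp [bas]

theorem normB (α β : ℝ) :
    (mkAct dataB).norm (α • bas 1 false + β • bas 1 true : V ℤˣ Bool) = |α| + |β| := by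
  refine norm_part dataB ?_ ?_ ?_ α β
  · rw [bas_vec0, NB1]
  · rw [bas_vec1, NB2]
  · intro α β
    rw [bas_vec0, bas_vec1, vec_comb, NB_vec]
    constructor
    · refine le_trans (le_of_eq ?_) ((le_max_left _ _).trans (le_max_left _ _))
      congr 1; ring
    · refine le_trans (le_of_eq ?_) ((le_max_right _ _).trans (le_max_left _ _))
      congr 1; ring

theorem normC (α β : ℝ) :
    (mkAct dataC).norm (α • bas 1 false + β • bas 1 true : V ℤˣ Bool) = |α| + |β| := by
  refine norm_part dataC ?_ ?_ ?_ α β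
  · rw [bas_vec0, NC1]
  · rw [bas_vec1, NC2]
  · intro α β
    rw [bas_vec0, bas_vec1, vec_comb, NC_vec]
    constructor
    · refine le_trans (le_of_eq ?_) ((le_max_left _ _).trans (le_max_left _ _))
      congr 1; ring
    · refine le_trans (le_of_eq ?_) ((le_max_right _ _).trans (le_max_left _ _))
      rw [← abs_neg]; congr 1; ring

/-- The embedding of the first action into the second. -/
def embB : Emb (mkAct dataA) (mkAct dataB) where
  φ := (1 : Unit →* ℤˣ)
  ψ := id
  φ_inj := fun _ _ _ => rfl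
  ψ_inj := Function.injective_id
  isometric := by
    intro (x : V Unit Bool)
    have h1 := push_two (1 : Unit →* ℤˣ) x
    have h2 := push_self x
    calc (mkAct dataB).norm (push (1 : Unit →* ℤˣ) id x : V ℤˣ Bool)
        = |x (1, false)| + |x (1, true)| := by rw [h1, normB]
      _ = (mkAct dataA).norm x := by
          conv_rhs => rw [h2]
          exact (normA _ _).symm

/-- The embedding of the first action into the third. -/
def embC : Emb (mkAct dataA) (mkAct dataC) where
  φ := (1 : Unit →* ℤˣ)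
  ψ := id
  φ_inj := fun _ _ _ => rfl
  ψ_inj := Function.injective_id
  isometric := by
    intro (x : V Unit Bool)
    have h1 := push_two (1 : Unit →* ℤˣ) x
    have h2 := push_self x
    calc (mkAct dataC).norm (push (1 : Unit →* ℤˣ) id x : V ℤˣ Bool)
        = |x (1, false)| + |x (1, true)| := by rw [h1, normC]
      _ = (mkAct dataA).norm x := by
          conv_rhs => rw [h2]
          exact (normA _ _).symm

theorem push_vec {F' I' : Type} [Group F'] (φ : ℤˣ →* F') (ψ : Bool → I') (p q r s : ℝ) :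
    push φ ψ (vec p q r s) = p • bas 1 (ψ false) + q • bas 1 (ψ true) +
      r • bas (φ (-1)) (ψ false) + s • bas (φ (-1)) (ψ true) := by
  unfold push
  rw [finsum_eq_sum_of_fintype, Fintype.sum_prod_type]
  have huniv : (Finset.univ : Finset ℤˣ) = {1, -1} := by decide
  rw [huniv, Finset.sum_insert (by decide), Finset.sum_singleton]
  simp only [Fintype.sum_bool, vec, map_one]
  simp only [if_true, Bool.false_eq_true, if_false, show ((-1 : ℤˣ) = 1) = False from by
    simp]
  abel

/-- The constraint given by a vector of the generating set. -/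
theorem constraint {S : Set (V ℤˣ Bool)} {N : V ℤˣ Bool → ℝ} (d : Data S N) (D : Act)
    (f : Emb (mkAct d) D) (ξ : V D.F D.I →ₗ[ℝ] ℝ) (hξ : ∀ x, |ξ x| ≤ D.norm x)
    (p q r s : ℝ) (hmem : vec p q r s ∈ S) (hN : N (vec p q r s) = 1) (h : D.F)
    (φ : ℤˣ →* D.F) (hφ : φ = f.φ) (ψ : Bool → D.I) (hψ : ψ = f.ψ) :
    |p * ξ (bas h (ψ false)) + q * ξ (bas h (ψ true)) + r * ξ (bas (h * φ (-1)) (ψ false)) +
      s * ξ (bas (h * φ (-1)) (ψ true))| ≤ 1 := by
  subst hφ hψ
  have h0 := hξ (act h (push f.φ f.ψ (vec p q r s)))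
  have h2 := norm_act_le D h (push f.φ f.ψ (vec p q r s))
  have h3 : D.norm (push f.φ f.ψ (vec p q r s)) = (mkAct d).norm (vec p q r s) :=
    f.isometric (vec p q r s)
  have h4 : (mkAct d).norm (vec p q r s) ≤ N (vec p q r s) := mkAct_le d hmem
  have h5 : push f.φ f.ψ (vec p q r s) = p • bas 1 (f.ψ false) + q • bas 1 (f.ψ true) +
      r • bas (f.φ (-1 : ℤˣ)) (f.ψ false) + s • bas (f.φ (-1 : ℤˣ)) (f.ψ true) :=
    push_vec f.φ f.ψ p q r s
  have h6 : ξ (act h (push f.φ f.ψ (vec p q r s))) = p * ξ (bas h (f.ψ false)) +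
      q * ξ (bas h (f.ψ true)) + r * ξ (bas (h * f.φ (-1 : ℤˣ)) (f.ψ false)) +
      s * ξ (bas (h * f.φ (-1 : ℤˣ)) (f.ψ true)) := by
    rw [h5]
    simp only [act_add, act_smul, act_bas, mul_one, map_add, map_smul, smul_eq_mul]
  rw [h6] at h0
  rw [h3] at h2
  refine h0.trans (h2.trans (h4.trans hN.le))

/-- The class of rational finitely presented actions fails the amalgamation property. -/
theorem result : ¬ Amalgamation := by
  intro ham
  obtain ⟨D, f₁, f₂, hφ, hψ⟩ := ham (mkAct dataA) (mkAct dataB) (mkAct dataC) embB embC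
  -- common data
  let φ₁ : ℤˣ →* D.F := f₁.φ
  let φ₂ : ℤˣ →* D.F := f₂.φ
  let ψ : Bool → D.I := f₁.ψ
  have hψ' : ψ = f₂.ψ := hψ
  -- a norming functional
  let v : V D.F D.I := bas 1 (ψ false) + bas 1 (ψ true)
  have hvn : D.norm v = 2 := by
    have h1 := f₁.isometric (vec 1 1 0 0)
    have h2 : push f₁.φ f₁.ψ (vec 1 1 0 0) = v := by
      have := push_vec φ₁ ψ 1 1 0 0
      simp only [one_smul, zero_smul, add_zero] at this
      exact this
    have h3 : (mkAct dataB).norm (vec 1 1 0 0) = 2 := by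
      have h4 := normB 1 1
      rw [bas_vec0, bas_vec1, vec_comb] at h4
      have h5 : |(1:ℝ)| + |(1:ℝ)| = 2 := by norm_num
      rw [h5] at h4
      exact h4
    rw [← h2, ← h3]
    exact h1
  have hv0 : v ≠ 0 := by
    intro h0
    have h1 := norm_smul D 0 v
    rw [zero_smul, abs_zero, zero_mul, ← h0, hvn] at h1
    norm_num at h1
  obtain ⟨ξ, hξv, hξ⟩ := exists_functional D v hv0
  let U : D.F → ℝ := fun h => ξ (bas h (ψ false))
  let T : D.F → ℝ := fun h => ξ (bas h (ψ true))
  have cB := constraint dataB D f₁ ξ hξ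
  have cC := constraint dataC D f₂ ξ hξ
  have hU1 : ∀ h, |U h| ≤ 1 := by
    intro h
    have := cB 1 0 0 0 (Or.inl rfl) NB1 h φ₁ rfl ψ rfl
    simpa using this
  have hT1 : ∀ h, |T h| ≤ 1 := by
    intro h
    have := cB 0 1 0 0 (Or.inr (Or.inl rfl)) NB2 h φ₁ rfl ψ rfl
    simpa using this
  have stepB : ∀ h, U h = 1 → U (h * φ₁ (-1)) = T h / 2 ∧ T (h * φ₁ (-1)) = 1 := by
    intro h hU
    have c4 := cB 2 0 0 (-1) (Or.inr (Or.inr (Or.inr (Or.inl rfl)))) NB4 h φ₁ rfl ψ rfl
    have c5 := cB 1 (1/2) (-1) 0 (Or.inr (Or.inr (Or.inr (Or.inr (Or.inl rfl))))) NB5 h φ₁ rfl ψ rfl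
    have c6 := cB 1 (-1/2) 1 0 (Or.inr (Or.inr (Or.inr (Or.inr (Or.inr rfl))))) NB6 h φ₁ rfl ψ rfl
    have e1 := hT1 (h * φ₁ (-1))
    rw [abs_le] at c4 c5 c6 e1
    have hU' : ξ (bas h (ψ false)) = 1 := hU
    rw [hU'] at c4 c5 c6
    simp only [U, T] at e1 ⊢
    constructor <;> linarith [c4.1, c4.2, c5.1, c5.2, c6.1, c6.2, e1.1, e1.2]
  have stepC : ∀ h, T h = 1 → U (h * φ₂ (-1)) = 1 ∧ T (h * φ₂ (-1)) = U h := by
    intro h hT
    have c4 := cC 0 2 (-1) 0 (Or.inr (Or.inr (Or.inr (Or.inl rfl)))) NC4 h φ₂ rfl ψ hψ'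
    have c5 := cC 1 1 0 (-1) (Or.inr (Or.inr (Or.inr (Or.inr (Or.inl rfl))))) NC5 h φ₂ rfl ψ hψ'
    have c6 := cC (-1) 1 0 1 (Or.inr (Or.inr (Or.inr (Or.inr (Or.inr rfl))))) NC6 h φ₂ rfl ψ hψ'
    have e1 := hU1 (h * φ₂ (-1))
    rw [abs_le] at c4 c5 c6 e1
    have hT' : ξ (bas h (ψ true)) = 1 := hT
    rw [hT'] at c4 c5 c6
    simp only [U, T] at e1 ⊢
    constructor <;> linarith [c4.1, c4.2, c5.1, c5.2, c6.1, c6.2, e1.1, e1.2]
  have step : ∀ h, U h = 1 → U (h * (φ₁ (-1) * φ₂ (-1))) = 1 ∧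
      T (h * (φ₁ (-1) * φ₂ (-1))) = T h / 2 := by
    intro h hU
    obtain ⟨h1, h2⟩ := stepB h hU
    obtain ⟨h3, h4⟩ := stepC _ h2
    rw [← mul_assoc]
    exact ⟨h3, by rw [h4, h1]⟩
  have hstart : U 1 = 1 ∧ T 1 = 1 := by
    have h1 : ξ v = U 1 + T 1 := map_add ξ _ _
    rw [hξv, hvn] at h1
    have h2 := (abs_le.mp (hU1 1)).2
    have h3 := (abs_le.mp (hT1 1)).2
    constructor <;> linarith
  have hpow : ∀ n : ℕ, U ((φ₁ (-1) * φ₂ (-1)) ^ n) = 1 ∧
      T ((φ₁ (-1) * φ₂ (-1)) ^ n) = (1/2) ^ n := by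
    intro n
    induction n with
    | zero => simpa using hstart
    | succ n ih =>
      rw [pow_succ]
      obtain ⟨h1, h2⟩ := step _ ih.1
      refine ⟨h1, ?_⟩
      rw [h2, ih.2, pow_succ]
      ring
  obtain ⟨n, hn, hn1⟩ := (isOfFinOrder_of_finite (φ₁ (-1) * φ₂ (-1))).exists_pow_eq_one
  have h1 := (hpow n).2
  rw [hn1, hstart.2] at h1
  have h2 : (1/2 : ℝ) ^ n < 1 := pow_lt_one₀ (by norm_num) (by norm_num) hn.ne'
  linarith

end Pool.Agent.Results.MP_66eb21_an.NoAmalgamation
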